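import Pool.Agent.UPQ.J.Low

/-!
# UPQ/J-Quot: growth of an entire quotient

`f = g h` with `f` of finite order in strips and `g` entire of finite order: `h` has finite order in
strips. As in `QD/F/Growth`, with the centre of the discs at a point near `3 + i Im s` where `g` is
not too small (`low_disc`).
-/

namespace Pool.Agent.UPQ

open MeasureTheory Metric Set Filter Real
open Pool.Agent.HWR (FinOrd)

private theorem jq_integral_ball_circ {u : ℂ → ℝ} (hu : Continuous u) (c : ℂ) {R : ℝ} (hR : 0 ≤ R) :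
    ∫ z in ball c R, u z = ∫ r in (0:ℝ)..R, 2 * π * r * circleAverage u c r := by
  have h1 : ∫ z in ball c R, u z = ∫ z, (ball c R).indicator u (z + c) := by
    rw [integral_add_right_eq_self (fun z => (ball c R).indicator u z) c]
    rw [integral_indicator measurableSet_ball]
  rw [h1, ← Complex.integral_comp_polarCoord_symm]
  have h2 : ∀ p ∈ polarCoord.target, p.1 • (ball c R).indicator u (Complex.polarCoord.symm p + c) =
      (Iio R ×ˢ (univ : Set ℝ)).indicator (fun p : ℝ × ℝ => p.1 * u (circleMap c p.1 p.2)) p := by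
    intro p hp
    have hp1 : 0 < p.1 := by
      simpa using hp.1
    have e1 : Complex.polarCoord.symm p + c = circleMap c p.1 p.2 := by
      rw [Complex.polarCoord_symm_apply, circleMap, Complex.exp_mul_I]
      push_cast
      ring
    rw [e1]
    by_cases hlt : p.1 < R
    · have m1 : circleMap c p.1 p.2 ∈ ball c R := by
        rw [mem_ball, dist_eq_norm]
        simp [abs_of_pos hp1, hlt]
      rw [indicator_of_mem m1, indicator_of_mem (by exact ⟨hlt, mem_univ _⟩), smul_eq_mul]
    · have m1 : circleMap c p.1 p.2 ∉ ball c R := by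
        rw [mem_ball, dist_eq_norm]
        simpa [abs_of_pos hp1] using hlt
      rw [indicator_of_notMem m1, indicator_of_notMem (by rintro ⟨h, -⟩; exact hlt h), smul_zero]
  rw [setIntegral_congr_fun (by exact polarCoord.open_target.measurableSet) h2,
    integral_indicator (measurableSet_Iio.prod MeasurableSet.univ),
    Measure.restrict_restrict (measurableSet_Iio.prod MeasurableSet.univ)]
  have h3 : (Iio R ×ˢ (univ : Set ℝ)) ∩ polarCoord.target = Ioo 0 R ×ˢ Ioo (-π) π := by
    rw [polarCoord_target]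
    ext p
    simp only [mem_inter_iff, mem_prod, mem_Iio, mem_univ, mem_Ioi, mem_Ioo]
    tauto
  rw [h3, Measure.volume_eq_prod, setIntegral_prod]
  · rw [intervalIntegral.integral_of_le hR, integral_Ioc_eq_integral_Ioo]
    refine setIntegral_congr_fun measurableSet_Ioo fun r hr => ?_
    show ∫ θ in Ioo (-π) π, r * u (circleMap c r θ) = _
    rw [circleAverage_eq_integral_add (-π), intervalIntegral.integral_comp_add_right
      (fun θ => u (circleMap c r θ)), integral_const_mul, ← integral_Ioc_eq_integral_Ioo,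
      ← intervalIntegral.integral_of_le (by linarith [Real.pi_pos]), smul_eq_mul]
    have e2 : (2 * π + -π) = π := by ring
    have e3 : (0 : ℝ) + -π = -π := by ring
    rw [e2, e3]
    have := Real.pi_pos
    field_simp
  · have hc : Continuous fun p : ℝ × ℝ => p.1 * u (circleMap c p.1 p.2) := by
      have : Continuous fun p : ℝ × ℝ => circleMap c p.1 p.2 := circleMap.continuous
      exact continuous_fst.mul (hu.comp this)
    have : IntegrableOn (fun p : ℝ × ℝ => p.1 * u (circleMap c p.1 p.2))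
        (Icc 0 R ×ˢ Icc (-π) π) := hc.continuousOn.integrableOn_compact
          (isCompact_Icc.prod isCompact_Icc)
    exact this.mono_set (prod_mono Ioo_subset_Icc_self Ioo_subset_Icc_self)

private theorem jq_jensen_le {h : ℂ → ℂ} (hh : Differentiable ℂ h) (c : ℂ) (hc : h c ≠ 0) {r : ℝ}
    (hr : 0 < r) : Real.log ‖h c‖ ≤ circleAverage (Real.log ‖h ·‖) c r := by
  have han : AnalyticOnNhd ℂ h (closedBall c |r|) := fun z _ => hh.analyticAt z
  rw [AnalyticOnNhd.circleAverage_log_norm hr.ne' han hc]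
  have : 0 ≤ ∑ᶠ u, (MeromorphicOn.divisor h (closedBall c |r|) u : ℝ) *
      Real.log (r * ‖c - u‖⁻¹) := by
    refine finsum_nonneg fun u => ?_
    by_cases hu : u ∈ closedBall c |r|
    · refine mul_nonneg (by exact_mod_cast MeromorphicOn.AnalyticOnNhd.divisor_nonneg han u) ?_
      rcases eq_or_ne u c with rfl | hne
      · simp
      · have h0 : 0 < ‖c - u‖ := norm_pos_iff.mpr (sub_ne_zero.mpr hne.symm)
        refine Real.log_nonneg ?_
        rw [← div_eq_mul_inv, one_le_div h0]
        rw [mem_closedBall, dist_comm, dist_eq_norm, abs_of_pos hr] at hu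
        exact hu
    · rw [Function.locallyFinsuppWithin.apply_eq_zero_of_notMem _ hu]
      simp
  linarith

private theorem jq_mero (h : ℂ → ℂ) (hh : Differentiable ℂ h) (s : Set ℂ) : MeromorphicOn h s :=
  fun z _ => (hh.analyticAt z).meromorphicAt

private theorem jq_posLog_le {h : ℂ → ℂ} (hh : Differentiable ℂ h) (c : ℂ) {r : ℝ}
    (hr : 0 < r) : Real.posLog ‖h c‖ ≤ circleAverage (fun z => Real.posLog ‖h z‖) c r := by
  have hnn : 0 ≤ circleAverage (fun z => Real.posLog ‖h z‖) c r :=
    circleAverage_nonneg_of_nonneg fun _ _ => Real.posLog_nonneg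
  by_cases hc : h c = 0
  · rw [hc]
    simpa using hnn
  · rw [Real.posLog_apply]
    refine max_le hnn ((jq_jensen_le hh c hc hr).trans ?_)
    refine circleAverage_mono (jq_mero h hh _).circleIntegrable_log_norm
      (jq_mero h hh _).circleIntegrable_posLog_norm fun z _ => ?_
    rw [Real.posLog_apply]
    exact le_max_right _ _

private theorem jq_circ_le {f g h : ℂ → ℂ} (hg : Differentiable ℂ g)
    (hh : Differentiable ℂ h) (he : ∀ s : ℂ, f s = g s * h s) {c : ℂ} (hc : g c ≠ 0) {r : ℝ}
    (hr : 0 < r) {A B : ℝ} (hA : ∀ z ∈ sphere c |r|, Real.posLog ‖f z‖ ≤ A)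
    (hB : ∀ z ∈ sphere c |r|, Real.posLog ‖g z‖ ≤ B) :
    circleAverage (fun z => Real.posLog ‖h z‖) c r ≤ A + B - Real.log ‖g c‖ := by
  have hcod : ∀ᶠ z in codiscreteWithin (sphere c |r|), g z ≠ 0 := by
    have h1 : g ⁻¹' {0}ᶜ ∈ codiscrete ℂ :=
      AnalyticOnNhd.preimage_zero_mem_codiscrete (fun z _ => hg.analyticAt z) hc
    exact codiscreteWithin_mono (subset_univ _) h1
  set ψ : ℂ → ℝ := fun z => A + B - Real.log ‖g z‖ with hψ
  have hψi : CircleIntegrable ψ c r :=
    (circleIntegrable_const (A + B) c r).sub (jq_mero g hg _).circleIntegrable_log_norm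
  set φ : ℂ → ℝ := fun z => if g z = 0 then ψ z else Real.posLog ‖h z‖ with hφ
  have e1 : (fun z => Real.posLog ‖h z‖) =ᶠ[codiscreteWithin (sphere c |r|)] φ := by
    filter_upwards [hcod] with z hz
    rw [hφ]
    simp [hz]
  have hφi : CircleIntegrable φ c r := by
    refine CircleIntegrable.congr_codiscreteWithin e1 ?_
    exact (jq_mero h hh _).circleIntegrable_posLog_norm
  rw [circleAverage_congr_codiscreteWithin e1 hr.ne']
  have h2 : circleAverage φ c r ≤ circleAverage ψ c r := by
    refine circleAverage_mono hφi hψi fun z hz => ?_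
    rw [hφ]
    by_cases hgz : g z = 0
    · simp [hgz]
    · simp only [hgz, if_false]
      have e2 : h z = f z * (g z)⁻¹ := by
        rw [he z]
        field_simp
      have e3 : Real.posLog ‖(g z)⁻¹‖ = Real.posLog ‖g z‖ - Real.log ‖g z‖ := by
        have := Real.posLog_sub_posLog_inv (x := ‖g z‖)
        rw [norm_inv]
        linarith
      have e4 : Real.posLog ‖h z‖ ≤ Real.posLog ‖f z‖ + Real.posLog ‖(g z)⁻¹‖ := by
        rw [e2, norm_mul]
        exact Real.posLog_mul
      rw [e3] at e4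
      have := hA z hz
      have := hB z hz
      rw [hψ]
      simp only
      linarith
  refine h2.trans ?_
  rw [hψ, circleAverage_fun_sub (circleIntegrable_const (A + B) c r)
    (jq_mero g hg _).circleIntegrable_log_norm, circleAverage_const]
  have := jq_jensen_le hg c hc hr
  linarith

private theorem jq_point_le {f g h : ℂ → ℂ} (hg : Differentiable ℂ g)
    (hh : Differentiable ℂ h) (he : ∀ s : ℂ, f s = g s * h s) {c s : ℂ} (hc : g c ≠ 0) {R : ℝ}
    (hs : ‖s - c‖ + 1 ≤ R) {A B : ℝ} (hA : ∀ z, ‖z - c‖ ≤ R → Real.posLog ‖f z‖ ≤ A)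
    (hB : ∀ z, ‖z - c‖ ≤ R → Real.posLog ‖g z‖ ≤ B) :
    Real.posLog ‖h s‖ ≤ R ^ 2 * (A + B - Real.log ‖g c‖) := by
  have hR : 1 ≤ R := by linarith [norm_nonneg (s - c)]
  set u : ℂ → ℝ := fun z => Real.posLog ‖h z‖ with hu
  have huc : Continuous u := Real.continuous_posLog.comp hh.continuous.norm
  have hu0 : ∀ z, 0 ≤ u z := fun z => Real.posLog_nonneg
  set M := A + B - Real.log ‖g c‖ with hM
  have hcirc : ∀ r, 0 < r → r ≤ R → circleAverage u c r ≤ M := by
    intro r hr hrR
    refine jq_circ_le hg hh he hc hr (fun z hz => hA z ?_) (fun z hz => hB z ?_)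
    all_goals
      rw [mem_sphere, dist_eq_norm, abs_of_pos hr] at hz
      rw [hz]
      exact hrR
  have hint : ∀ (c : ℂ) (R : ℝ), IntegrableOn u (ball c R) := fun c R =>
    (huc.continuousOn.integrableOn_compact (isCompact_closedBall c R)).mono_set
      ball_subset_closedBall
  have hsub : ball s 1 ⊆ ball c R := by
    refine ball_subset_ball' ?_
    rw [dist_eq_norm]
    linarith
  have h1 : ∫ z in ball s 1, u z ≤ ∫ z in ball c R, u z :=
    setIntegral_mono_set (hint c R) (Eventually.of_forall hu0) hsub.eventuallyLE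
  rw [jq_integral_ball_circ huc s zero_le_one, jq_integral_ball_circ huc c (by linarith)] at h1
  have hpi := Real.pi_pos
  have h2 : ∫ r in (0:ℝ)..1, 2 * π * r * u s ≤ ∫ r in (0:ℝ)..1, 2 * π * r * circleAverage u s r := by
    refine intervalIntegral.integral_mono_on_of_le_Ioo zero_le_one ?_ ?_ ?_
    · exact Continuous.intervalIntegrable (by fun_prop) _ _
    · exact Continuous.intervalIntegrable (by fun_prop) _ _
    · intro r hr
      have := jq_posLog_le hh s hr.1
      have h0 : 0 ≤ 2 * π * r := by have := hr.1; positivity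
      exact mul_le_mul_of_nonneg_left this h0
  have h3 : ∫ r in (0:ℝ)..R, 2 * π * r * circleAverage u c r ≤ ∫ r in (0:ℝ)..R, 2 * π * r * M := by
    refine intervalIntegral.integral_mono_on_of_le_Ioo (by linarith) ?_ ?_ ?_
    · exact Continuous.intervalIntegrable (by fun_prop) _ _
    · exact Continuous.intervalIntegrable (by fun_prop) _ _
    · intro r hr
      have := hcirc r hr.1 hr.2.le
      have h0 : 0 ≤ 2 * π * r := by have := hr.1; positivity
      exact mul_le_mul_of_nonneg_left this h0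
  have h4 : ∀ (T K : ℝ), ∫ r in (0:ℝ)..T, 2 * π * r * K = π * T ^ 2 * K := by
    intro T K
    have : (fun r : ℝ => 2 * π * r * K) = fun r : ℝ => (2 * π * K) * r := by
      ext r
      ring
    rw [this, intervalIntegral.integral_const_mul, integral_id]
    ring
  rw [h4] at h2 h3
  have h5 := h2.trans (h1.trans h3)
  have h6 : π * u s ≤ π * (R ^ 2 * M) := by
    calc π * u s = π * 1 ^ 2 * u s := by ring
      _ ≤ π * R ^ 2 * M := h5
      _ = π * (R ^ 2 * M) := by ring
  exact le_of_mul_le_mul_left h6 hpi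

private theorem jq_strip_bd {f : ℂ → ℂ} (h1 : FinOrd f) (R : ℝ) (hR : 0 ≤ R) :
    ∃ (A K : ℝ), 0 ≤ A ∧ 0 ≤ K ∧ ∀ y : ℝ, ∀ z : ℂ, ‖z - (3 + y * Complex.I)‖ ≤ R →
      Real.posLog ‖f z‖ ≤ K * (1 + |y|) ^ A := by
  obtain ⟨A, C, hAC⟩ := h1 (3 - R) (3 + R)
  refine ⟨|A|, |C| * (1 + R) ^ |A|, abs_nonneg _, by positivity, fun y z hz => ?_⟩
  have hre : |z.re - 3| ≤ R := by
    have := (Complex.abs_re_le_norm (z - (3 + y * Complex.I))).trans hz
    simpa using this
  have him : |z.im - y| ≤ R := by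
    have := (Complex.abs_im_le_norm (z - (3 + y * Complex.I))).trans hz
    simpa using this
  rw [abs_le] at hre
  have hb := hAC z (by linarith) (by linarith)
  have hy : (1 : ℝ) ≤ 1 + |y| := by linarith [abs_nonneg y]
  have hz1 : (1 : ℝ) ≤ 1 + |z.im| := by linarith [abs_nonneg z.im]
  have him2 : 1 + |z.im| ≤ (1 + R) * (1 + |y|) := by
    have : |z.im| ≤ |z.im - y| + |y| := by
      have := abs_add_le (z.im - y) y
      simpa using this
    nlinarith [abs_nonneg y]
  have hb2 : ‖f z‖ ≤ Real.exp (|C| * (1 + R) ^ |A| * (1 + |y|) ^ |A|) := by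
    refine hb.trans (Real.exp_le_exp.mpr ?_)
    calc C * (1 + |z.im|) ^ A ≤ |C| * (1 + |z.im|) ^ |A| :=
          mul_le_mul (le_abs_self C) (Real.rpow_le_rpow_of_exponent_le hz1 (le_abs_self A))
            (by positivity) (abs_nonneg C)
      _ ≤ |C| * ((1 + R) * (1 + |y|)) ^ |A| := by
          gcongr
      _ = |C| * (1 + R) ^ |A| * (1 + |y|) ^ |A| := by
          rw [Real.mul_rpow (by positivity) (by positivity)]
          ring
  calc Real.posLog ‖f z‖ ≤ Real.posLog (Real.exp (|C| * (1 + R) ^ |A| * (1 + |y|) ^ |A|)) :=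
        Real.posLog_le_posLog (norm_nonneg _) hb2
    _ = |C| * (1 + R) ^ |A| * (1 + |y|) ^ |A| := by
        rw [Real.posLog_apply, Real.log_exp]
        exact max_eq_right (by positivity)

theorem finOrd_quot_fo {f g h : ℂ → ℂ} (hf : Differentiable ℂ f) (hg : IsFO g)
    (hh : Differentiable ℂ h) (h1 : FinOrd f) (he : ∀ s : ℂ, f s = g s * h s) : FinOrd h := by
  have hgd : Differentiable ℂ g := hg.diff
  have h2 : FinOrd g := hg.finOrd
  obtain ⟨A0, k, hA0, hlow⟩ := low_disc hg
  intro a b
  set R : ℝ := |a| + |b| + 12 with hRdef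
  have hR : 0 ≤ R := by positivity
  obtain ⟨A1, K1, hA1, hK1, hf1⟩ := jq_strip_bd h1 (R + 1) (by linarith)
  obtain ⟨A2, K2, hA2, hK2, hg1⟩ := jq_strip_bd h2 (R + 1) (by linarith)
  refine ⟨A1 + A2 + k, R ^ 2 * (K1 + K2 + A0), fun s ha hb => ?_⟩
  set y : ℝ := s.im with hy
  set s0 : ℂ := 3 + y * Complex.I with hs0
  obtain ⟨s1, hs1, hlow1⟩ := hlow y
  have hg0 : g s1 ≠ 0 := by
    intro h0
    rw [h0, norm_zero] at hlow1
    exact absurd hlow1 (not_le.2 (Real.exp_pos _))
  have htri : ∀ z : ℂ, ‖z - s1‖ ≤ R → ‖z - (3 + y * Complex.I)‖ ≤ R + 1 := by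
    intro z hz
    have e : z - (3 + y * Complex.I) = (z - s1) + (s1 - (3 + y * Complex.I)) := by ring
    rw [e]
    exact (norm_add_le _ _).trans (add_le_add hz hs1)
  have hss : ‖s - s1‖ + 1 ≤ R := by
    have e : s - s0 = ((s.re - 3 : ℝ) : ℂ) := by
      apply Complex.ext
      · simp [hs0]
      · simp [hs0, hy]
    have e1 : s - s1 = (s - s0) - (s1 - (3 + y * Complex.I)) := by
      rw [hs0]
      ring
    have e2 : ‖s - s0‖ ≤ |a| + |b| + 3 := by
      rw [e, Complex.norm_real, Real.norm_eq_abs, abs_le]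
      constructor
      · linarith [neg_abs_le a, abs_nonneg b]
      · linarith [le_abs_self b, abs_nonneg a]
    have e3 : ‖s - s1‖ ≤ ‖s - s0‖ + ‖s1 - (3 + y * Complex.I)‖ := by
      rw [e1]
      exact norm_sub_le _ _
    linarith
  have hmain := jq_point_le hgd hh he hg0 hss (fun z hz => hf1 y z (htri z hz))
    (fun z hz => hg1 y z (htri z hz))
  have hlog : -Real.log ‖g s1‖ ≤ A0 * (1 + |y|) ^ k := by
    have := Real.log_le_log (Real.exp_pos _) hlow1
    rw [Real.log_exp] at this
    linarith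
  have hy1 : (1 : ℝ) ≤ 1 + |y| := by linarith [abs_nonneg y]
  have hT : Real.posLog ‖h s‖ ≤ R ^ 2 * (K1 + K2 + A0) *
      (1 + |y|) ^ (A1 + A2 + (k : ℝ)) := by
    refine hmain.trans ?_
    rw [mul_assoc]
    refine mul_le_mul_of_nonneg_left ?_ (by positivity)
    have hk : (0 : ℝ) ≤ k := Nat.cast_nonneg k
    have t1 : (1 + |y|) ^ A1 ≤ (1 + |y|) ^ (A1 + A2 + (k : ℝ)) :=
      Real.rpow_le_rpow_of_exponent_le hy1 (by linarith)
    have t2 : (1 + |y|) ^ A2 ≤ (1 + |y|) ^ (A1 + A2 + (k : ℝ)) :=
      Real.rpow_le_rpow_of_exponent_le hy1 (by linarith)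
    have t3 : (1 + |y|) ^ k ≤ (1 + |y|) ^ (A1 + A2 + (k : ℝ)) := by
      rw [← Real.rpow_natCast]
      exact Real.rpow_le_rpow_of_exponent_le hy1 (by linarith)
    have t5 := mul_le_mul_of_nonneg_left t1 hK1
    have t6 := mul_le_mul_of_nonneg_left t2 hK2
    have t7 := mul_le_mul_of_nonneg_left t3 hA0
    linarith
  by_cases hz : h s = 0
  · rw [hz, norm_zero]
    exact (Real.exp_pos _).le
  · calc ‖h s‖ = Real.exp (Real.log ‖h s‖) := (Real.exp_log (norm_pos_iff.mpr hz)).symm
      _ ≤ Real.exp (R ^ 2 * (K1 + K2 + A0) * (1 + |y|) ^ (A1 + A2 + (k : ℝ))) := by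
        refine Real.exp_le_exp.mpr (le_trans ?_ hT)
        rw [Real.posLog_apply]
        exact le_max_right _ _

end Pool.Agent.UPQ
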