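import Pool.Agent.UPQ.J.FO

/-!
# UPQ/J-Gauss: the symmetric Gaussian factors

`ek k s = exp (-((-((s - 1)^2))^k))`.  With `s = 1 + x + i t`: `-((s - 1)^2) = t^2 + δ`, `δ = -x^2 - 2 i x t`, so that in a
strip the real part of the exponent is at most `- t^(2 k) + C (1 + |t|)^(2 k - 1)`: a factor `ek k` with `k` large makes every
entire function of finite order bounded in vertical strips.
-/

namespace Pool.Agent.UPQ

open Pool.Agent.QD Pool.Agent.QD.SysD Pool.Agent.LD Pool.Agent.MD Pool.Agent.THF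
open Pool.Agent.HWR (FinOrd)

noncomputable def ek (k : ℕ) (s : ℂ) : ℂ := Complex.exp (-((-((s - 1) ^ 2)) ^ k))

theorem ek_diff (k : ℕ) : Differentiable ℂ (ek k) := by
  unfold ek
  fun_prop

theorem ek_ne (k : ℕ) (s : ℂ) : ek k s ≠ 0 := Complex.exp_ne_zero _

theorem ek_sym (k : ℕ) (s : ℂ) : ek k (2 - s) = ek k s := by
  unfold ek
  have h : (2 - s - 1) ^ 2 = (s - 1) ^ 2 := by ring
  rw [h]

theorem ek_finOrd (k : ℕ) : FinOrd (ek k) := by
  intro a b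
  refine ⟨((2 * k : ℕ) : ℝ), (1 + |a| + |b|) ^ (2 * k), fun s h1 h2 => ?_⟩
  rw [Real.rpow_natCast, ← mul_pow]
  have h3 : ‖s - 1‖ ≤ (1 + |a| + |b|) * (1 + |s.im|) := by
    refine le_trans ?_ (norm_strip h1 h2)
    calc ‖s - 1‖ ≤ ‖s‖ + ‖(1 : ℂ)‖ := norm_sub_le _ _
      _ = 1 + ‖s‖ := by rw [norm_one]; ring
  have h4 : ‖ek k s‖ ≤ Real.exp ‖-((-((s - 1) ^ 2)) ^ k)‖ := by
    unfold ek
    rw [Complex.norm_exp]
    exact Real.exp_le_exp.2 (Complex.re_le_norm _)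
  refine h4.trans (Real.exp_le_exp.2 ?_)
  rw [norm_neg, norm_pow, norm_neg, norm_pow, ← pow_mul]
  exact pow_le_pow_left₀ (norm_nonneg _) h3 _

private theorem ekg_pow (u v : ℂ) (M : ℝ) (hu : ‖u‖ ≤ M) (hv : ‖v‖ ≤ M) (n : ℕ) :
    ‖v ^ (n + 1) - u ^ (n + 1)‖ ≤ (n + 1) * ‖v - u‖ * M ^ n := by
  have hM : 0 ≤ M := (norm_nonneg u).trans hu
  induction n with
  | zero => simp
  | succ n ih =>
    have h1 : v ^ (n + 1 + 1) - u ^ (n + 1 + 1) = v * (v ^ (n + 1) - u ^ (n + 1)) +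
        (v - u) * u ^ (n + 1) := by ring
    rw [h1]
    refine (norm_add_le _ _).trans ?_
    rw [norm_mul, norm_mul, norm_pow]
    have h2 : ‖v‖ * ‖v ^ (n + 1) - u ^ (n + 1)‖ ≤ M * ((n + 1) * ‖v - u‖ * M ^ n) :=
      mul_le_mul hv ih (norm_nonneg _) hM
    have h3 : ‖v - u‖ * ‖u‖ ^ (n + 1) ≤ ‖v - u‖ * M ^ (n + 1) :=
      mul_le_mul_of_nonneg_left (pow_le_pow_left₀ (norm_nonneg _) hu _) (norm_nonneg _)
    refine (add_le_add h2 h3).trans (le_of_eq ?_)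
    push_cast
    ring

private theorem ekg_re (n : ℕ) {X : ℝ} {s : ℂ} (h : |s.re - 1| ≤ X) :
    (-((-((s - 1) ^ 2)) ^ (n + 1))).re ≤ -|s.im| ^ (2 * n + 2) +
      (n + 1) * (X + 1) ^ (2 * n + 2) * (1 + |s.im|) ^ (2 * n + 1) := by
  have hX : 0 ≤ X := (abs_nonneg _).trans h
  have ht : 0 ≤ |s.im| := abs_nonneg _
  have hx2 : (s.re - 1) ^ 2 ≤ X ^ 2 := by
    rw [← sq_abs]
    exact pow_le_pow_left₀ (abs_nonneg _) h 2
  set u : ℂ := ((s.im ^ 2 : ℝ) : ℂ) with hu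
  set v : ℂ := -((s - 1) ^ 2) with hv
  have hun : ‖u‖ = |s.im| ^ 2 := by
    rw [hu, Complex.norm_real, Real.norm_eq_abs, abs_pow]
  have hsn : ‖s - 1‖ ^ 2 = (s.re - 1) ^ 2 + s.im ^ 2 := by
    rw [Complex.sq_norm, Complex.normSq_apply]
    simp only [Complex.sub_re, Complex.one_re, Complex.sub_im, Complex.one_im, sub_zero]
    ring
  have hvn : ‖v‖ = (s.re - 1) ^ 2 + |s.im| ^ 2 := by
    rw [hv, norm_neg, norm_pow, hsn, sq_abs]
  have huM : ‖u‖ ≤ (X + 1) ^ 2 * (1 + |s.im|) ^ 2 := by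
    rw [hun, ← mul_pow]
    refine pow_le_pow_left₀ ht ?_ 2
    nlinarith
  have hvM : ‖v‖ ≤ (X + 1) ^ 2 * (1 + |s.im|) ^ 2 := by
    rw [hvn]
    nlinarith [mul_nonneg hX ht, mul_nonneg (mul_nonneg hX hX) ht,
      mul_nonneg (mul_nonneg hX hX) (mul_nonneg ht ht), mul_nonneg hX (mul_nonneg ht ht)]
  have hd : ‖v - u‖ ≤ (X + 1) ^ 2 * (1 + |s.im|) := by
    have h1 : v - u = -(((s.re - 1 : ℝ) : ℂ) * (((s.re - 1 : ℝ) : ℂ) + 2 * (s.im : ℂ) * Complex.I)) := by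
      have h2 : s = (s.re : ℂ) + (s.im : ℂ) * Complex.I := (Complex.re_add_im s).symm
      rw [hv, hu]
      conv_lhs => rw [h2]
      push_cast
      simp only [Complex.add_re, Complex.ofReal_re, Complex.mul_re, Complex.I_re, mul_zero,
        Complex.ofReal_im, Complex.I_im, mul_one, sub_self, add_zero, Complex.add_im, Complex.mul_im,
        zero_add]
      ring_nf
      rw [Complex.I_sq]
      ring
    rw [h1, norm_neg, norm_mul, Complex.norm_real, Real.norm_eq_abs]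
    have h3 : ‖((s.re - 1 : ℝ) : ℂ) + 2 * (s.im : ℂ) * Complex.I‖ ≤ X + 2 * |s.im| := by
      refine (norm_add_le _ _).trans ?_
      rw [Complex.norm_real, norm_mul, norm_mul, Complex.norm_I, Complex.norm_real,
        Real.norm_eq_abs, Real.norm_eq_abs, mul_one]
      have h4 : ‖(2 : ℂ)‖ = 2 := by simp
      rw [h4]
      linarith
    calc |s.re - 1| * ‖((s.re - 1 : ℝ) : ℂ) + 2 * (s.im : ℂ) * Complex.I‖
        ≤ X * (X + 2 * |s.im|) := mul_le_mul h h3 (norm_nonneg _) hX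
      _ ≤ (X + 1) ^ 2 * (1 + |s.im|) := by nlinarith [mul_nonneg hX ht, mul_nonneg (mul_nonneg hX hX) ht]
  have hmain : ‖v ^ (n + 1) - u ^ (n + 1)‖ ≤
      (n + 1) * (X + 1) ^ (2 * n + 2) * (1 + |s.im|) ^ (2 * n + 1) := by
    refine (ekg_pow u v _ huM hvM n).trans ?_
    have h5 : ((n : ℝ) + 1) * ‖v - u‖ ≤ ((n : ℝ) + 1) * ((X + 1) ^ 2 * (1 + |s.im|)) :=
      mul_le_mul_of_nonneg_left hd (by positivity)
    refine (mul_le_mul_of_nonneg_right h5 (by positivity)).trans (le_of_eq ?_)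
    rw [mul_pow, ← pow_mul, ← pow_mul]
    ring
  have hre : (u ^ (n + 1)).re = |s.im| ^ (2 * n + 2) := by
    rw [hu, ← Complex.ofReal_pow, Complex.ofReal_re, ← sq_abs, ← pow_mul]
    congr 1
  have hfin : (-(v ^ (n + 1))).re = -(u ^ (n + 1)).re + (-(v ^ (n + 1) - u ^ (n + 1))).re := by
    simp only [Complex.neg_re, Complex.sub_re]
    ring
  rw [hfin, hre]
  have h6 : (-(v ^ (n + 1) - u ^ (n + 1))).re ≤ ‖v ^ (n + 1) - u ^ (n + 1)‖ := by
    rw [← norm_neg (v ^ (n + 1) - u ^ (n + 1))]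
    exact Complex.re_le_norm _
  linarith

private theorem ekg_num (m : ℕ) {C t : ℝ} (hC : 0 ≤ C) (ht : 0 ≤ t) :
    -t ^ (2 * m + 2) + C * (1 + t) ^ (2 * m + 1) ≤ C * (2 + 4 ^ (m + 1) * C) ^ (2 * m + 1) := by
  have h4 : (0 : ℝ) ≤ 4 ^ (m + 1) * C := by positivity
  rcases le_total (1 + t) (2 + 4 ^ (m + 1) * C) with h | h
  · have h1 : (1 + t) ^ (2 * m + 1) ≤ (2 + 4 ^ (m + 1) * C) ^ (2 * m + 1) :=
      pow_le_pow_left₀ (by linarith) h _
    have h2 := mul_le_mul_of_nonneg_left h1 hC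
    have h3 : 0 ≤ t ^ (2 * m + 2) := pow_nonneg ht _
    linarith
  · have h5 : (1 + t) / 2 ≤ t := by linarith
    have h6 : ((1 + t) / 2) ^ (2 * m + 2) ≤ t ^ (2 * m + 2) := pow_le_pow_left₀ (by linarith) h5 _
    have h7 : ((1 + t) / 2) ^ (2 * m + 2) = (1 + t) ^ (2 * m + 2) / 4 ^ (m + 1) := by
      rw [div_pow]
      congr 1
      rw [show 2 * m + 2 = 2 * (m + 1) by ring, pow_mul]
      norm_num
    have h8 : C ≤ (1 + t) / 4 ^ (m + 1) := by
      rw [le_div_iff₀ (by positivity)]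
      linarith
    have h9 : C * (1 + t) ^ (2 * m + 1) ≤ (1 + t) / 4 ^ (m + 1) * (1 + t) ^ (2 * m + 1) :=
      mul_le_mul_of_nonneg_right h8 (by positivity)
    have h10 : (1 + t) / 4 ^ (m + 1) * (1 + t) ^ (2 * m + 1) = (1 + t) ^ (2 * m + 2) / 4 ^ (m + 1) := by
      rw [show 2 * m + 2 = (2 * m + 1) + 1 by ring, pow_succ (1 + t) (2 * m + 1)]
      ring
    have h11 : 0 ≤ C * (2 + 4 ^ (m + 1) * C) ^ (2 * m + 1) := by positivity
    linarith

theorem ek_mul {Q : ℂ → ℂ} (hQ : IsFO Q) : ∃ k : ℕ, IsMul fun s => ek k s * Q s := by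
  obtain ⟨m, C, hC, hb⟩ := hQ.ord'
  refine ⟨m + 1, (ek_diff (m + 1)).mul hQ.diff, ?_, ?_⟩
  · intro c a b _
    set X : ℝ := |a - 1| + |b - 1| with hX
    set K : ℝ := 1 + |a| + |b| with hK
    set C' : ℝ := (m + 1) * (X + 1) ^ (2 * m + 2) + C * K ^ m with hC'
    have hX0 : 0 ≤ X := by positivity
    have hK0 : 0 ≤ K := by positivity
    have hC'0 : 0 ≤ C' := by positivity
    refine ⟨0, Real.exp (C' * (2 + 4 ^ (m + 1) * C') ^ (2 * m + 1)), le_refl _,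
      (Real.exp_pos _).le, fun s h1 h2 => ?_⟩
    rw [Real.rpow_zero, mul_one]
    have hs : |s.re - 1| ≤ X := by
      rw [abs_le]
      constructor
      · linarith [neg_abs_le (a - 1), abs_nonneg (b - 1)]
      · linarith [le_abs_self (b - 1), abs_nonneg (a - 1)]
    have h3 : ‖Q s‖ ≤ Real.exp (C * K ^ m * (1 + |s.im|) ^ (2 * m + 1)) := by
      refine (hb s).trans (Real.exp_le_exp.2 ?_)
      have h4 : (1 + ‖s‖) ^ m ≤ (K * (1 + |s.im|)) ^ m :=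
        pow_le_pow_left₀ (by positivity) (norm_strip h1 h2) m
      have h5 : (1 + |s.im|) ^ m ≤ (1 + |s.im|) ^ (2 * m + 1) :=
        pow_le_pow_right₀ (by linarith [abs_nonneg s.im]) (by omega)
      calc C * (1 + ‖s‖) ^ m ≤ C * (K * (1 + |s.im|)) ^ m := mul_le_mul_of_nonneg_left h4 hC
        _ = C * K ^ m * (1 + |s.im|) ^ m := by rw [mul_pow]; ring
        _ ≤ C * K ^ m * (1 + |s.im|) ^ (2 * m + 1) :=
            mul_le_mul_of_nonneg_left h5 (by positivity)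
    have h6 : ‖ek (m + 1) s‖ ≤ Real.exp (-|s.im| ^ (2 * m + 2) +
        (m + 1) * (X + 1) ^ (2 * m + 2) * (1 + |s.im|) ^ (2 * m + 1)) := by
      unfold ek
      rw [Complex.norm_exp]
      exact Real.exp_le_exp.2 (ekg_re m hs)
    rw [norm_mul]
    refine (mul_le_mul h6 h3 (norm_nonneg _) (Real.exp_pos _).le).trans ?_
    rw [← Real.exp_add]
    refine Real.exp_le_exp.2 ?_
    have h7 := ekg_num m hC'0 (abs_nonneg s.im)
    refine le_trans (le_of_eq ?_) h7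
    rw [hC']
    ring
  · obtain ⟨s, hs⟩ := hQ.ne
    exact ⟨s, mul_ne_zero (ek_ne _ _) hs⟩

end Pool.Agent.UPQ
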