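import Pool.Agent.UPQ.A.Defs

/-!
# UPQ/J-FO: entire functions of finite order
-/

namespace Pool.Agent.UPQ

open Pool.Agent.QD Pool.Agent.QD.SysD Pool.Agent.LD Pool.Agent.MD Pool.Agent.THF
open Pool.Agent.HWR (FinOrd)

/-- the multipliers: entire, not identically zero, of finite order -/
structure IsFO (Q : ℂ → ℂ) : Prop where
  diff : Differentiable ℂ Q
  ne : ∃ s : ℂ, Q s ≠ 0
  ord : ∃ c C : ℝ, ∀ s : ℂ, ‖Q s‖ ≤ Real.exp (C * (1 + ‖s‖) ^ c)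

/-- natural exponent and a positive constant -/
theorem IsFO.ord' {Q : ℂ → ℂ} (h : IsFO Q) :
    ∃ (m : ℕ) (C : ℝ), 0 ≤ C ∧ ∀ s : ℂ, ‖Q s‖ ≤ Real.exp (C * (1 + ‖s‖) ^ m) := by
  obtain ⟨c, C, h⟩ := h.ord
  refine ⟨⌈|c|⌉₊, |C|, abs_nonneg _, fun s => (h s).trans (Real.exp_le_exp.2 ?_)⟩
  have h1 : (1 : ℝ) ≤ 1 + ‖s‖ := by linarith [norm_nonneg s]
  have h2 : c ≤ (⌈|c|⌉₊ : ℝ) := (le_abs_self c).trans (Nat.le_ceil _)
  have h3 : (1 + ‖s‖) ^ c ≤ (1 + ‖s‖) ^ (⌈|c|⌉₊ : ℝ) := Real.rpow_le_rpow_of_exponent_le h1 h2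
  rw [Real.rpow_natCast] at h3
  have h4 : (0 : ℝ) ≤ (1 + ‖s‖) ^ c := Real.rpow_nonneg (by linarith) _
  calc C * (1 + ‖s‖) ^ c ≤ |C| * (1 + ‖s‖) ^ c := mul_le_mul_of_nonneg_right (le_abs_self C) h4
    _ ≤ |C| * (1 + ‖s‖) ^ ⌈|c|⌉₊ := mul_le_mul_of_nonneg_left h3 (abs_nonneg C)

/-- `1 + ‖s‖` in a vertical strip -/
theorem norm_strip {a b : ℝ} {s : ℂ} (h1 : a ≤ s.re) (h2 : s.re ≤ b) :
    1 + ‖s‖ ≤ (1 + |a| + |b|) * (1 + |s.im|) := by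
  have h3 : ‖s‖ ≤ |s.re| + |s.im| := Complex.norm_le_abs_re_add_abs_im s
  have h4 : |s.re| ≤ |a| + |b| := by
    rw [abs_le]
    constructor
    · linarith [neg_abs_le a, abs_nonneg b]
    · linarith [le_abs_self b, abs_nonneg a]
  nlinarith [abs_nonneg a, abs_nonneg b, abs_nonneg s.im]

theorem IsFO.finOrd {Q : ℂ → ℂ} (h : IsFO Q) : FinOrd Q := by
  obtain ⟨m, C, hC, h⟩ := h.ord'
  intro a b
  refine ⟨m, C * (1 + |a| + |b|) ^ m, fun s h1 h2 => (h s).trans (Real.exp_le_exp.2 ?_)⟩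
  rw [Real.rpow_natCast, mul_assoc, ← mul_pow]
  refine mul_le_mul_of_nonneg_left (pow_le_pow_left₀ (by positivity) (norm_strip h1 h2) m) hC

end Pool.Agent.UPQ
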