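import Pool.Agent.UPQ.J.FO
import Pool.Agent.QD.F.Growth

/-!
# UPQ/J-Low: a function of finite order is not too small on a disc

`Q c ≠ 0`, `R = |y| + ‖c‖ + 5`, `B` a bound of `log⁺ ‖Q‖` on `closedBall c R`, `M = R^2 (B + |log ‖Q c‖|) + 1`, `g = exp M * Q`.
If `‖g‖ ≤ 1` on the disc `ball s0 1` then the subharmonicity of `log⁺ ‖g‖ ≤ M + B` gives
`M + B ≤ R^2 ((M + B) - log ‖g c‖) = R^2 (B - log ‖Q c‖)`, a contradiction.
-/

namespace Pool.Agent.UPQ

open MeasureTheory Metric Set Filter Real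

private theorem integral_ball_circ {u : ℂ → ℝ} (hu : Continuous u) (c : ℂ) {R : ℝ} (hR : 0 ≤ R) :
    ∫ z in ball c R, u z = ∫ r in (0:ℝ)..R, 2 * π * r * circleAverage u c r := by
  have h1 : ∫ z in ball c R, u z = ∫ z, (ball c R).indicator u (z + c) := by
    rw [integral_add_right_eq_self (fun z => (ball c R).indicator u z) c]
    rw [integral_indicator measurableSet_ball]
  rw [h1, ← Complex.integral_comp_polarCoord_symm]
  have h2 : ∀ p ∈ polarCoord.target, p.1 • (ball c R).indicator u (Complex.polarCoord.symm p + c) =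
      (Iio R ×ˢ (univ : Set ℝ)).indicator (fun p : ℝ × ℝ => p.1 * u (circleMap c p.1 p.2)) p := by
    intro p hp
    have hp1 : 0 < p.1 := by
      simpa using hp.1
    have e1 : Complex.polarCoord.symm p + c = circleMap c p.1 p.2 := by
      rw [Complex.polarCoord_symm_apply, circleMap, Complex.exp_mul_I]
      push_cast
      ring
    rw [e1]
    by_cases hlt : p.1 < R
    · have m1 : circleMap c p.1 p.2 ∈ ball c R := by
        rw [mem_ball, dist_eq_norm]
        simp [abs_of_pos hp1, hlt]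
      rw [indicator_of_mem m1, indicator_of_mem (by exact ⟨hlt, mem_univ _⟩), smul_eq_mul]
    · have m1 : circleMap c p.1 p.2 ∉ ball c R := by
        rw [mem_ball, dist_eq_norm]
        simpa [abs_of_pos hp1] using hlt
      rw [indicator_of_notMem m1, indicator_of_notMem (by rintro ⟨h, -⟩; exact hlt h), smul_zero]
  rw [setIntegral_congr_fun (by exact polarCoord.open_target.measurableSet) h2,
    integral_indicator (measurableSet_Iio.prod MeasurableSet.univ),
    Measure.restrict_restrict (measurableSet_Iio.prod MeasurableSet.univ)]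
  have h3 : (Iio R ×ˢ (univ : Set ℝ)) ∩ polarCoord.target = Ioo 0 R ×ˢ Ioo (-π) π := by
    rw [polarCoord_target]
    ext p
    simp only [mem_inter_iff, mem_prod, mem_Iio, mem_univ, mem_Ioi, mem_Ioo]
    tauto
  rw [h3, Measure.volume_eq_prod, setIntegral_prod]
  · rw [intervalIntegral.integral_of_le hR, integral_Ioc_eq_integral_Ioo]
    refine setIntegral_congr_fun measurableSet_Ioo fun r hr => ?_
    show ∫ θ in Ioo (-π) π, r * u (circleMap c r θ) = _
    rw [circleAverage_eq_integral_add (-π), intervalIntegral.integral_comp_add_right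
      (fun θ => u (circleMap c r θ)), integral_const_mul, ← integral_Ioc_eq_integral_Ioo,
      ← intervalIntegral.integral_of_le (by linarith [Real.pi_pos]), smul_eq_mul]
    have e2 : (2 * π + -π) = π := by ring
    have e3 : (0 : ℝ) + -π = -π := by ring
    rw [e2, e3]
    have := Real.pi_pos
    field_simp
  · have hc : Continuous fun p : ℝ × ℝ => p.1 * u (circleMap c p.1 p.2) := by
      have : Continuous fun p : ℝ × ℝ => circleMap c p.1 p.2 := circleMap.continuous
      exact continuous_fst.mul (hu.comp this)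
    have : IntegrableOn (fun p : ℝ × ℝ => p.1 * u (circleMap c p.1 p.2))
        (Icc 0 R ×ˢ Icc (-π) π) := hc.continuousOn.integrableOn_compact
          (isCompact_Icc.prod isCompact_Icc)
    exact this.mono_set (prod_mono Ioo_subset_Icc_self Ioo_subset_Icc_self)

private theorem jensen_le {h : ℂ → ℂ} (hh : Differentiable ℂ h) (c : ℂ) (hc : h c ≠ 0) {r : ℝ}
    (hr : 0 < r) : Real.log ‖h c‖ ≤ circleAverage (Real.log ‖h ·‖) c r := by
  have han : AnalyticOnNhd ℂ h (closedBall c |r|) := fun z _ => hh.analyticAt z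
  rw [AnalyticOnNhd.circleAverage_log_norm hr.ne' han hc]
  have : 0 ≤ ∑ᶠ u, (MeromorphicOn.divisor h (closedBall c |r|) u : ℝ) *
      Real.log (r * ‖c - u‖⁻¹) := by
    refine finsum_nonneg fun u => ?_
    by_cases hu : u ∈ closedBall c |r|
    · refine mul_nonneg (by exact_mod_cast MeromorphicOn.AnalyticOnNhd.divisor_nonneg han u) ?_
      rcases eq_or_ne u c with rfl | hne
      · simp
      · have h0 : 0 < ‖c - u‖ := norm_pos_iff.mpr (sub_ne_zero.mpr hne.symm)
        refine Real.log_nonneg ?_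
        rw [← div_eq_mul_inv, one_le_div h0]
        rw [mem_closedBall, dist_comm, dist_eq_norm, abs_of_pos hr] at hu
        exact hu
    · rw [Function.locallyFinsuppWithin.apply_eq_zero_of_notMem _ hu]
      simp
  linarith

private theorem mero (h : ℂ → ℂ) (hh : Differentiable ℂ h) (s : Set ℂ) : MeromorphicOn h s :=
  fun z _ => (hh.analyticAt z).meromorphicAt

private theorem posLog_le {h : ℂ → ℂ} (hh : Differentiable ℂ h) (c : ℂ) {r : ℝ}
    (hr : 0 < r) : Real.posLog ‖h c‖ ≤ circleAverage (fun z => Real.posLog ‖h z‖) c r := by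
  have hnn : 0 ≤ circleAverage (fun z => Real.posLog ‖h z‖) c r :=
    circleAverage_nonneg_of_nonneg fun _ _ => Real.posLog_nonneg
  by_cases hc : h c = 0
  · rw [hc]
    simpa using hnn
  · rw [Real.posLog_apply]
    refine max_le hnn ((jensen_le hh c hc hr).trans ?_)
    refine circleAverage_mono (mero h hh _).circleIntegrable_log_norm
      (mero h hh _).circleIntegrable_posLog_norm fun z _ => ?_
    rw [Real.posLog_apply]
    exact le_max_right _ _

private theorem lo_core {g : ℂ → ℂ} (hg : Differentiable ℂ g) {c s0 : ℂ} {R U : ℝ}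
    (hR : ‖s0 - c‖ + 1 ≤ R) (hU : ∀ z, ‖z - c‖ ≤ R → Real.posLog ‖g z‖ ≤ U)
    (hs : ∀ z ∈ ball s0 1, ‖g z‖ ≤ 1) : U ≤ R ^ 2 * (U - Real.log ‖g c‖) := by
  have hR1 : 1 ≤ R := by linarith [norm_nonneg (s0 - c)]
  set u : ℂ → ℝ := fun z => Real.posLog ‖g z‖ with hu
  have huc : Continuous u := Real.continuous_posLog.comp hg.continuous.norm
  have hlog : ∀ r, 0 < r → Real.log ‖g c‖ ≤ circleAverage u c r := fun r hr =>
    (show Real.log ‖g c‖ ≤ u c by rw [hu]; simp only; rw [Real.posLog_apply]; exact le_max_right _ _).trans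
      (posLog_le hg c hr)
  have hcont : Continuous fun z => U - u z := continuous_const.sub huc
  have hint : ∀ (f : ℂ → ℝ), Continuous f → ∀ (c : ℂ) (R : ℝ), IntegrableOn f (ball c R) :=
    fun f hf c R => (hf.continuousOn.integrableOn_compact (isCompact_closedBall c R)).mono_set
      ball_subset_closedBall
  have hsub : ball s0 1 ⊆ ball c R := by
    refine ball_subset_ball' ?_
    rw [dist_eq_norm]
    linarith
  have hnn : 0 ≤ᵐ[volume.restrict (ball c R)] fun z => U - u z := by
    refine (ae_restrict_iff' measurableSet_ball).2 (Eventually.of_forall fun z hz => ?_)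
    rw [mem_ball, dist_eq_norm] at hz
    have := hU z hz.le
    show 0 ≤ U - u z
    rw [hu]
    simp only
    linarith
  have h1 : ∫ z in ball s0 1, (U - u z) ≤ ∫ z in ball c R, (U - u z) :=
    setIntegral_mono_set (hint _ hcont c R) hnn hsub.eventuallyLE
  have h2 : ∫ z in ball s0 1, (U - u z) = ∫ z in ball s0 1, U := by
    refine setIntegral_congr_fun measurableSet_ball fun z hz => ?_
    have h3 : u z = 0 := by
      rw [hu]
      simp only
      rw [Real.posLog_apply]
      exact max_eq_left (Real.log_nonpos (norm_nonneg _) (hs z hz))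
    show U - u z = U
    rw [h3, sub_zero]
  have h4 : ∀ (T K : ℝ), ∫ r in (0:ℝ)..T, 2 * π * r * K = π * T ^ 2 * K := by
    intro T K
    have : (fun r : ℝ => 2 * π * r * K) = fun r : ℝ => (2 * π * K) * r := by
      ext r
      ring
    rw [this, intervalIntegral.integral_const_mul, integral_id]
    ring
  have h5 : ∀ (c : ℂ) (T : ℝ), 0 ≤ T → ∫ _ in ball c T, U = π * T ^ 2 * U := by
    intro c T hT
    rw [integral_ball_circ (continuous_const (y := U)) c hT, ← h4]
    refine intervalIntegral.integral_congr fun r _ => ?_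
    rw [circleAverage_const]
  rw [h2, h5 s0 1 zero_le_one, integral_sub (hint _ continuous_const c R) (hint _ huc c R),
    h5 c R (by linarith), integral_ball_circ huc c (by linarith)] at h1
  have hpi := Real.pi_pos
  have hcu : Continuous fun r : ℝ => circleAverage u c r := by fun_prop
  have h3 : ∫ r in (0:ℝ)..R, 2 * π * r * Real.log ‖g c‖ ≤
      ∫ r in (0:ℝ)..R, 2 * π * r * circleAverage u c r := by
    refine intervalIntegral.integral_mono_on_of_le_Ioo (by linarith) ?_ ?_ ?_
    · exact Continuous.intervalIntegrable (by fun_prop) _ _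
    · exact Continuous.intervalIntegrable (by fun_prop) _ _
    · intro r hr
      have := hlog r hr.1
      have h0 : 0 ≤ 2 * π * r := by have := hr.1; positivity
      exact mul_le_mul_of_nonneg_left this h0
  rw [h4] at h3
  have h6 : π * U ≤ π * (R ^ 2 * (U - Real.log ‖g c‖)) := by
    calc π * U = π * 1 ^ 2 * U := by ring
      _ ≤ π * R ^ 2 * U - ∫ r in (0:ℝ)..R, 2 * π * r * circleAverage u c r := h1
      _ ≤ π * R ^ 2 * U - π * R ^ 2 * Real.log ‖g c‖ := by linarith
      _ = π * (R ^ 2 * (U - Real.log ‖g c‖)) := by ring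
  exact le_of_mul_le_mul_left h6 hpi

theorem low_disc {Q : ℂ → ℂ} (hQ : IsFO Q) : ∃ (A : ℝ) (m : ℕ), 0 ≤ A ∧ ∀ y : ℝ, ∃ s : ℂ,
    ‖s - (3 + y * Complex.I)‖ ≤ 1 ∧ Real.exp (-(A * (1 + |y|) ^ m)) ≤ ‖Q s‖ := by
  obtain ⟨c, hc⟩ := hQ.ne
  obtain ⟨m, C, hC, hQ1⟩ := hQ.ord'
  set L : ℝ := |Real.log ‖Q c‖| with hL
  have hL0 : 0 ≤ L := abs_nonneg _
  have hc0 : 0 ≤ ‖c‖ := norm_nonneg c
  refine ⟨(‖c‖ + 5) ^ 2 * (C * (2 * ‖c‖ + 6) ^ m + L) + 1, m + 2, by positivity, fun y => ?_⟩
  have hy : 0 ≤ |y| := abs_nonneg y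
  set s0 : ℂ := 3 + y * Complex.I with hs0
  set R : ℝ := |y| + ‖c‖ + 5 with hR
  set B : ℝ := C * (1 + ‖c‖ + R) ^ m with hB
  set M : ℝ := R ^ 2 * (B + L) + 1 with hM
  have hR0 : 0 ≤ R := by positivity
  have hB0 : 0 ≤ B := by positivity
  have hM0 : 0 ≤ M := by positivity
  have hMle : M ≤ ((‖c‖ + 5) ^ 2 * (C * (2 * ‖c‖ + 6) ^ m + L) + 1) * (1 + |y|) ^ (m + 2) := by
    have e1 : R ≤ (‖c‖ + 5) * (1 + |y|) := by
      rw [hR]
      nlinarith
    have e2 : R ^ 2 ≤ (‖c‖ + 5) ^ 2 * (1 + |y|) ^ 2 := by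
      rw [← mul_pow]
      exact pow_le_pow_left₀ hR0 e1 2
    have e3 : (1 + ‖c‖ + R) ^ m ≤ (2 * ‖c‖ + 6) ^ m * (1 + |y|) ^ m := by
      rw [← mul_pow]
      refine pow_le_pow_left₀ (by positivity) ?_ m
      rw [hR]
      nlinarith
    have e4 : (1 : ℝ) ≤ (1 + |y|) ^ m := one_le_pow₀ (by linarith)
    have e5 : (1 : ℝ) ≤ (1 + |y|) ^ (m + 2) := one_le_pow₀ (by linarith)
    have e6 : B + L ≤ (C * (2 * ‖c‖ + 6) ^ m + L) * (1 + |y|) ^ m := by
      have e7 := mul_le_mul_of_nonneg_left e3 hC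
      have e8 := mul_le_mul_of_nonneg_left e4 hL0
      rw [hB]
      linarith
    calc M = R ^ 2 * (B + L) + 1 := rfl
      _ ≤ ((‖c‖ + 5) ^ 2 * (1 + |y|) ^ 2) * ((C * (2 * ‖c‖ + 6) ^ m + L) * (1 + |y|) ^ m) +
          (1 + |y|) ^ (m + 2) := by
          refine add_le_add (mul_le_mul e2 e6 (by positivity) (by positivity)) e5
      _ = _ := by ring
  by_contra hcon
  push Not at hcon
  have hsmall : ∀ z ∈ ball s0 1, ‖(Real.exp M : ℂ) * Q z‖ ≤ 1 := by
    intro z hz
    rw [mem_ball, dist_eq_norm] at hz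
    have h1 := hcon z hz.le
    have h2 : ‖Q z‖ ≤ Real.exp (-M) := h1.le.trans (Real.exp_le_exp.2 (by linarith))
    rw [norm_mul, Complex.norm_real, Real.norm_eq_abs, abs_of_pos (Real.exp_pos M)]
    calc Real.exp M * ‖Q z‖ ≤ Real.exp M * Real.exp (-M) :=
          mul_le_mul_of_nonneg_left h2 (Real.exp_pos M).le
      _ = 1 := by rw [← Real.exp_add, add_neg_cancel, Real.exp_zero]
  have hdiff : Differentiable ℂ fun z => (Real.exp M : ℂ) * Q z := hQ.diff.const_mul _
  have hs0c : ‖s0 - c‖ + 1 ≤ R := by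
    have h1 : ‖s0‖ ≤ 3 + |y| := by
      refine (norm_add_le _ _).trans ?_
      rw [norm_mul, Complex.norm_I, mul_one, Complex.norm_real, Real.norm_eq_abs]
      have : ‖(3 : ℂ)‖ = 3 := by norm_num
      rw [this]
    have h2 := norm_sub_le s0 c
    rw [hR]
    linarith
  have hUb : ∀ z, ‖z - c‖ ≤ R → Real.posLog ‖(Real.exp M : ℂ) * Q z‖ ≤ M + B := by
    intro z hz
    rw [norm_mul, Complex.norm_real, Real.norm_eq_abs, abs_of_pos (Real.exp_pos M)]
    refine Real.posLog_mul.trans (add_le_add ?_ ?_)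
    · rw [Real.posLog_apply, Real.log_exp]
      exact max_le hM0 le_rfl
    · have h1 : ‖z‖ ≤ ‖c‖ + R := by
        have := norm_add_le (z - c) c
        rw [sub_add_cancel] at this
        linarith
      have h2 : ‖Q z‖ ≤ Real.exp B := (hQ1 z).trans (Real.exp_le_exp.2
        (mul_le_mul_of_nonneg_left (pow_le_pow_left₀ (by positivity) (by linarith) m) hC))
      refine (Real.posLog_le_posLog (norm_nonneg _) h2).trans ?_
      rw [Real.posLog_apply, Real.log_exp]
      exact max_le hB0 le_rfl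
  have h1 := lo_core hdiff hs0c hUb hsmall
  have h2 : Real.log ‖(Real.exp M : ℂ) * Q c‖ = M + Real.log ‖Q c‖ := by
    rw [norm_mul, Complex.norm_real, Real.norm_eq_abs, abs_of_pos (Real.exp_pos M),
      Real.log_mul (Real.exp_ne_zero M) (norm_ne_zero_iff.2 hc), Real.log_exp]
  rw [h2] at h1
  have h3 : R ^ 2 * (M + B - (M + Real.log ‖Q c‖)) ≤ R ^ 2 * (B + L) := by
    refine mul_le_mul_of_nonneg_left ?_ (by positivity)
    have := neg_abs_le (Real.log ‖Q c‖)
    linarith
  have h4 : M = R ^ 2 * (B + L) + 1 := rfl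
  linarith

end Pool.Agent.UPQ
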